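import Pool.Agent.helper60.DK.Spec

set_option autoImplicit false

namespace Pool.Agent.helper60.DK

open Polynomial Finset

theorem ME_three {p : ℕ} (hp : p.Prime) (h5 : 5 ≤ p) {j : ℕ} (hj : j < nn p + 1) :
    3 * j ≤ p - 1 := by
  have h3 : ¬ 3 ∣ p := by
    intro h
    have := (Nat.prime_dvd_prime_iff_eq Nat.prime_three hp).mp h
    omega
  unfold nn at hj
  omega

theorem ME_deg1 (p : ℕ) [hp : Fact p.Prime] (h5 : 5 ≤ p) : (M1 p).natDegree ≤ p - 1 := by
  unfold M1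
  apply natDegree_sum_le_of_forall_le
  intro j hj
  have h3 := ME_three hp.out h5 (mem_range.mp hj)
  have e1 : ((X - 1) * (X + 2) ^ 2 : (ZMod p)[X]).natDegree ≤ 3 := by compute_degree
  have e2 : (((X - 1) * (X + 2) ^ 2 : (ZMod p)[X]) ^ j).natDegree ≤ j * 3 :=
    natDegree_pow_le_of_le j e1
  have e3 : (X ^ (p - 1 - 3 * j) : (ZMod p)[X]).natDegree ≤ p - 1 - 3 * j := natDegree_X_pow_le _
  refine (natDegree_C_mul_le _ _).trans (natDegree_mul_le.trans ?_)
  omega

theorem ME_deg2 (p : ℕ) [hp : Fact p.Prime] (h5 : 5 ≤ p) : (M2 p).natDegree ≤ p - 1 := by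
  unfold M2
  apply natDegree_sum_le_of_forall_le
  intro j hj
  have h3 := ME_three hp.out h5 (mem_range.mp hj)
  have e1 : ((X - 1) ^ 2 * (X + 2) : (ZMod p)[X]).natDegree ≤ 3 := by compute_degree
  have e2 : (((X - 1) ^ 2 * (X + 2) : (ZMod p)[X]) ^ j).natDegree ≤ j * 3 :=
    natDegree_pow_le_of_le j e1
  refine (natDegree_C_mul_le _ _).trans ?_
  omega

theorem ME_eval1 (p : ℕ) [hp : Fact p.Prime] : (M1 p).eval 1 = 1 := by
  unfold M1
  rw [eval_finsetSum, sum_eq_single_of_mem 0 (mem_range.mpr (Nat.succ_pos _))]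
  · simp [dc_zero]
  · intro j _ hj
    simp [hj]

theorem ME_eval2 (p : ℕ) [hp : Fact p.Prime] : (M2 p).eval 1 = 1 := by
  unfold M2
  rw [eval_finsetSum, sum_eq_single_of_mem 0 (mem_range.mpr (Nat.succ_pos _))]
  · simp [dc_zero]
  · intro j _ hj
    simp [hj]

theorem ME_Eop_sub {R : Type*} [CommRing R] (y z : R[X]) : Eop (y - z) = Eop y - Eop z := by
  unfold Eop
  simp only [derivative_sub]
  ring

theorem ME_eq (h1 : ME1_stmt) (h2 : ME2_stmt) (p : ℕ) [hp : Fact p.Prime] (h5 : 5 ≤ p) :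
    M1 p = M2 p := by
  set Y : (ZMod p)[X] := M1 p - M2 p with hY
  have hE : Eop Y = 0 := by rw [hY, ME_Eop_sub, h1 p h5, h2 p h5, sub_zero]
  have hroot : (X - C (1 : ZMod p)) ^ 1 ∣ Y := by
    rw [pow_one]
    refine dvd_iff_isRoot.mpr ?_
    rw [IsRoot.def, hY, eval_sub, ME_eval1 p, ME_eval2 p, sub_self]
  have hdvd : (X - C (1 : ZMod p)) ^ p ∣ Y := by
    refine dvd_range (1 : ZMod p) 0 ((X + 1) * (4 - X ^ 2)) (10 * X - 4 * X ^ 3)
      (- 2 * (X ^ 2 - 1)) Y 1 p (by omega) ?_ hroot ?_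
    · have h := hE
      unfold Eop at h
      have hC : (C (1 : ZMod p) : (ZMod p)[X]) = 1 := C_1
      rw [hC]
      linear_combination h
    · intro m hm1 hmp
      have hm0 : (m : ZMod p) ≠ 0 := cast_ne_zero_of_lt hm1 hmp
      have h60 : (6 : ZMod p) ≠ 0 := by
        have h23 : (6 : ZMod p) = ((2 : ℕ) : ZMod p) * ((3 : ℕ) : ZMod p) := by norm_num
        rw [h23]
        exact mul_ne_zero (cast_ne_zero_of_lt (by norm_num) (by omega))
          (cast_ne_zero_of_lt (by norm_num) (by omega))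
      have hval : eval (1 : ZMod p) 0 * ((m : ZMod p) * (m - 1) * (m - 2))
          + eval (1 : ZMod p) ((X + 1) * (4 - X ^ 2)) * ((m : ZMod p) * (m - 1))
          + eval (1 : ZMod p) (10 * X - 4 * X ^ 3) * m = 6 * (m : ZMod p) ^ 2 := by
        simp only [eval_zero, eval_mul, eval_add, eval_sub, eval_pow, eval_X, eval_one,
          eval_ofNat]
        ring
      rw [hval]
      exact mul_ne_zero h60 (pow_ne_zero _ hm0)
  have hdeg : Y.natDegree < p := by
    have h := natDegree_sub_le (M1 p) (M2 p)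
    have ha := ME_deg1 p h5
    have hb := ME_deg2 p h5
    have : Y.natDegree ≤ p - 1 := h.trans (max_le ha hb)
    omega
  have hY0 : Y = 0 := by
    by_contra hne
    have h := natDegree_le_of_dvd hdvd hne
    rw [natDegree_pow, natDegree_X_sub_C, mul_one] at h
    omega
  exact sub_eq_zero.mp hY0

theorem ME_aeval_Dz {F : Type} [Field F] (n : ℕ) (y : F) :
    aeval y (Dz n) = ∑ j ∈ range (n + 1), ((dc n j : ℤ) : F) * y ^ j := by
  have hd : (Dz n).natDegree < n + 1 := by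
    have : (Dz n).natDegree ≤ n := by
      rw [natDegree_le_iff_coeff_eq_zero]
      intro j hj
      rw [coeff_Dz', dc_of_lt hj]
    omega
  rw [aeval_eq_sum_range' hd]
  refine sum_congr rfl fun j _ => ?_
  rw [coeff_Dz', zsmul_eq_mul]

theorem ME (h1 : ME1_stmt) (h2 : ME2_stmt) : ME_stmt := by
  intro p hp F _ _ h5 s hs
  let _ : Algebra (ZMod p) F := ZMod.algebra F p
  have key := congrArg (aeval s) (ME_eq h1 h2 p h5)
  have hL : aeval s (M1 p)
      = s ^ (p - 1) * aeval (-((s - 1) * (s + 2) ^ 2) / (2 * s ^ 3)) (Dz (nn p)) := by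
    rw [ME_aeval_Dz, mul_sum]
    unfold M1
    rw [map_sum]
    refine sum_congr rfl fun j hj => ?_
    have h3 := ME_three hp.out h5 (mem_range.mp hj)
    have hsp : s ^ (p - 1) = s ^ (p - 1 - 3 * j) * (s ^ 3) ^ j := by
      rw [← pow_mul, ← pow_add]
      congr 1
      omega
    have hfrac : -((s - 1) * (s + 2) ^ 2) / (2 * s ^ 3)
        = (-1 / 2) * ((s - 1) * (s + 2) ^ 2) * (s ^ 3)⁻¹ := by
      rw [div_eq_mul_inv, mul_inv]
      ring
    have hcanc : (s ^ 3) ^ j * ((s ^ 3)⁻¹) ^ j = 1 := by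
      rw [← mul_pow, mul_inv_cancel₀ (pow_ne_zero 3 hs), one_pow]
    simp only [map_mul, map_pow, aeval_C, aeval_X, map_sub, map_add, map_one, map_ofNat,
      map_intCast, map_div₀, map_neg]
    rw [hfrac, mul_pow (-1 / 2 * ((s - 1) * (s + 2) ^ 2)) ((s ^ 3)⁻¹) j,
      mul_pow (-1 / 2 : F) ((s - 1) * (s + 2) ^ 2) j, hsp]
    have hAj : ((s - 1) ^ j * ((s + 2) ^ 2) ^ j) = ((s - 1) * (s + 2) ^ 2) ^ j := by
      rw [mul_pow]
    generalize ((s - 1) * (s + 2) ^ 2) = A at *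
    generalize (s ^ 3) ^ j = u at *
    generalize ((s ^ 3)⁻¹) ^ j = v at *
    linear_combination (-((dc (nn p) j : ℤ) : F) * (-1 / 2) ^ j * A ^ j
      * s ^ (p - 1 - 3 * j)) * hcanc
  have hR : aeval s (M2 p) = aeval (-((s - 1) ^ 2 * (s + 2)) / 4) (Dz (nn p)) := by
    rw [ME_aeval_Dz]
    unfold M2
    rw [map_sum]
    refine sum_congr rfl fun j _ => ?_
    have hfrac : -((s - 1) ^ 2 * (s + 2)) / 4 = (-1 / 4) * ((s - 1) ^ 2 * (s + 2)) := by
      rw [div_eq_mul_inv]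
      ring
    simp only [map_mul, map_pow, aeval_C, aeval_X, map_sub, map_add, map_one, map_ofNat,
      map_intCast, map_div₀, map_neg]
    rw [hfrac, mul_pow (-1 / 4 : F)]
    ring
  rw [← hL, ← hR]
  exact key

end Pool.Agent.helper60.DK
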